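import Pool.Agent.N773.AD.Size

/-!
# Almost all degree tuples can be sorted into groups

The number of the degrees divisible by `p` is large for almost all tuples of degrees and all primes
`p ≤ r ^ (1 - ε / 2)` (this is `almost_all_cnt`, with the proof of `Pool.Agent.N773.AD.almost_all`), and so the
degrees can be sorted, for every `p`, into `m` groups whose products are divisible by a high power of `p`.
-/

set_option autoImplicit false

open Finset Filter Topology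
open Pool.Agent.N773.AD

namespace Pool.Agent.U660.AD

theorem almost_all_cnt (ε : ℝ) (hε : 0 < ε) (hε1 : ε < 1) : ∃ r₂ : ℕ, ∀ r : ℕ, r₂ ≤ r → ∀ N : ℕ, r ≤ N →
    ∀ A : Fin r → ℕ, ∃ Ex : Finset (Fin r → ℕ),
      (Ex.card : ℝ) ≤ Real.exp (-(r : ℝ) ^ (ε / 4)) * (N : ℝ) ^ r ∧
      ∀ d : Fin r → ℕ, (∀ i, A i < d i ∧ d i ≤ A i + N) → d ∉ Ex →
        ∀ p : ℕ, p.Prime → p ≤ yy ε r → SS ε r p ≤ cnt p d := by
  classical
  obtain ⟨δ, hδ⟩ : ∃ δ, δ = ε / 8 := ⟨_, rfl⟩
  have hδ0 : 0 < δ := by rw [hδ]; positivity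
  have hδ1 : δ ≤ 1 / 8 := by rw [hδ]; linarith
  have hr : Tendsto (fun r : ℕ => (r : ℝ)) atTop atTop := tendsto_natCast_atTop_atTop
  have ev1 : ∀ᶠ r : ℕ in atTop, (r : ℝ) ^ (1 - ε / 2) ≤ δ * r := by
    have h1 : Tendsto (fun r : ℕ => (r : ℝ) ^ (ε / 2)) atTop atTop :=
      (tendsto_rpow_atTop (by positivity)).comp hr
    filter_upwards [h1.eventually_ge_atTop (1 / δ), eventually_ge_atTop 1] with r h2 h3
    have hr0 : (0 : ℝ) < r := by exact_mod_cast h3
    rw [Real.rpow_sub hr0, Real.rpow_one, div_le_iff₀ (by positivity)]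
    rw [div_le_iff₀ hδ0] at h2
    nlinarith
  have ev2 : ∀ᶠ r : ℕ in atTop,
      Real.log r + (r : ℝ) ^ (ε / 4) ≤ δ ^ 2 * (1 - δ) * (r : ℝ) ^ (ε / 2) := by
    have h1 : (fun x : ℝ => Real.log x) =o[atTop] fun x : ℝ => x ^ (ε / 2) :=
      isLittleO_log_rpow_atTop (by positivity)
    have hc : 0 < δ ^ 2 * (1 - δ) := by
      have : 0 < 1 - δ := by linarith
      positivity
    have h2 : Tendsto (fun r : ℕ => (r : ℝ) ^ (ε / 4)) atTop atTop :=
      (tendsto_rpow_atTop (by positivity)).comp hr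
    have h3 := h1.comp_tendsto hr
    filter_upwards [h3.def (half_pos hc), h2.eventually_ge_atTop (2 / (δ ^ 2 * (1 - δ))),
      eventually_ge_atTop 1] with r h4 h5 h6
    have hr0 : (0 : ℝ) < r := by exact_mod_cast h6
    simp only [Function.comp, Real.norm_eq_abs] at h4
    rw [abs_of_nonneg (by positivity : (0 : ℝ) ≤ (r : ℝ) ^ (ε / 2))] at h4
    have h7 := (le_abs_self _).trans h4
    have h8 : (r : ℝ) ^ (ε / 2) = (r : ℝ) ^ (ε / 4) * (r : ℝ) ^ (ε / 4) := by
      rw [← Real.rpow_add hr0]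
      congr 1
      ring
    rw [div_le_iff₀ hc] at h5
    have h9 : 0 < (r : ℝ) ^ (ε / 4) := by positivity
    rw [h8] at h7 ⊢
    nlinarith
  obtain ⟨r₂, hr₂⟩ := eventually_atTop.1 (ev1.and (ev2.and (eventually_ge_atTop 1)))
  refine ⟨r₂, fun r hr2 N hN A => ?_⟩
  obtain ⟨e1, e2, e3⟩ := hr₂ r hr2
  have hr0 : (0 : ℝ) < r := by exact_mod_cast e3
  have hrN : (r : ℝ) ≤ N := by exact_mod_cast hN
  refine ⟨((Icc 1 (yy ε r)).filter Nat.Prime).biUnion (fun p => (Pool.Agent.N773.AD.box r N A).filter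
    (fun d => (cnt p d : ℝ) ≤ (1 - 2 * δ) * ((1 - δ) / p) * r)), ?_, ?_⟩
  · have h1 : ∀ p ∈ (Icc 1 (yy ε r)).filter Nat.Prime, (((Pool.Agent.N773.AD.box r N A).filter
        (fun d => (cnt p d : ℝ) ≤ (1 - 2 * δ) * ((1 - δ) / p) * r)).card : ℝ) ≤
        (N : ℝ) ^ r * Real.exp (-(δ ^ 2 * (1 - δ) * (r : ℝ) ^ (ε / 2))) := by
      intro p hp
      obtain ⟨h2, h3⟩ := Finset.mem_filter.1 hp
      have hp0 : (0 : ℝ) < p := by exact_mod_cast h3.pos
      have h4 : (p : ℝ) ≤ (r : ℝ) ^ (1 - ε / 2) := by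
        have h5 := (Finset.mem_Icc.1 h2).2
        unfold yy at h5
        exact (Nat.le_floor_iff (by positivity)).1 h5
      refine (chernoff h3.pos hδ0 (by linarith) (h4.trans (e1.trans
        (mul_le_mul_of_nonneg_left hrN hδ0.le))) A).trans ?_
      refine mul_le_mul_of_nonneg_left (Real.exp_le_exp.2 (neg_le_neg ?_)) (by positivity)
      have h6 : (r : ℝ) ^ (ε / 2) ≤ r / p := by
        rw [le_div_iff₀ hp0]
        calc (r : ℝ) ^ (ε / 2) * p ≤ (r : ℝ) ^ (ε / 2) * (r : ℝ) ^ (1 - ε / 2) :=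
              mul_le_mul_of_nonneg_left h4 (by positivity)
          _ = r := by
              rw [← Real.rpow_add hr0]
              norm_num
      have h7 : 0 ≤ δ ^ 2 * (1 - δ) := by
        have : 0 ≤ 1 - δ := by linarith
        positivity
      calc δ ^ 2 * (1 - δ) * (r : ℝ) ^ (ε / 2) ≤ δ ^ 2 * (1 - δ) * (r / p) :=
            mul_le_mul_of_nonneg_left h6 h7
        _ = δ ^ 2 * ((1 - δ) / p) * r := by ring
    have h2 : ((((Icc 1 (yy ε r)).filter Nat.Prime).biUnion (fun p => (Pool.Agent.N773.AD.box r N A).filter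
        (fun d => (cnt p d : ℝ) ≤ (1 - 2 * δ) * ((1 - δ) / p) * r))).card : ℝ) ≤
        ∑ p ∈ (Icc 1 (yy ε r)).filter Nat.Prime, (((Pool.Agent.N773.AD.box r N A).filter
          (fun d => (cnt p d : ℝ) ≤ (1 - 2 * δ) * ((1 - δ) / p) * r)).card : ℝ) := by
      exact_mod_cast Finset.card_biUnion_le
    refine h2.trans ((Finset.sum_le_sum h1).trans ?_)
    rw [Finset.sum_const, nsmul_eq_mul]
    have h3 : ((((Icc 1 (yy ε r)).filter Nat.Prime).card : ℕ) : ℝ) ≤ r := by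
      have h4 : ((Icc 1 (yy ε r)).filter Nat.Prime).card ≤ yy ε r := by
        refine (Finset.card_filter_le _ _).trans ?_
        rw [Nat.card_Icc]
        omega
      have h5 : ((yy ε r : ℕ) : ℝ) ≤ (r : ℝ) ^ (1 - ε / 2) := Nat.floor_le (by positivity)
      have h6 : (r : ℝ) ^ (1 - ε / 2) ≤ r := e1.trans (by nlinarith)
      have h7 : ((((Icc 1 (yy ε r)).filter Nat.Prime).card : ℕ) : ℝ) ≤ ((yy ε r : ℕ) : ℝ) := by
        exact_mod_cast h4
      linarith
    have h4 : (r : ℝ) * Real.exp (-(δ ^ 2 * (1 - δ) * (r : ℝ) ^ (ε / 2))) ≤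
        Real.exp (-(r : ℝ) ^ (ε / 4)) := by
      have h5 : (r : ℝ) = Real.exp (Real.log r) := (Real.exp_log hr0).symm
      calc (r : ℝ) * Real.exp (-(δ ^ 2 * (1 - δ) * (r : ℝ) ^ (ε / 2)))
          = Real.exp (Real.log r) * Real.exp (-(δ ^ 2 * (1 - δ) * (r : ℝ) ^ (ε / 2))) := by
            rw [← h5]
        _ = Real.exp (Real.log r + -(δ ^ 2 * (1 - δ) * (r : ℝ) ^ (ε / 2))) := by
            rw [Real.exp_add]
        _ ≤ Real.exp (-(r : ℝ) ^ (ε / 4)) := Real.exp_le_exp.2 (by linarith)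
    have h5 : 0 ≤ (N : ℝ) ^ r * Real.exp (-(δ ^ 2 * (1 - δ) * (r : ℝ) ^ (ε / 2))) := by positivity
    calc ((((Icc 1 (yy ε r)).filter Nat.Prime).card : ℕ) : ℝ) *
        ((N : ℝ) ^ r * Real.exp (-(δ ^ 2 * (1 - δ) * (r : ℝ) ^ (ε / 2))))
        ≤ r * ((N : ℝ) ^ r * Real.exp (-(δ ^ 2 * (1 - δ) * (r : ℝ) ^ (ε / 2)))) :=
          mul_le_mul_of_nonneg_right h3 h5
      _ = (r * Real.exp (-(δ ^ 2 * (1 - δ) * (r : ℝ) ^ (ε / 2)))) * (N : ℝ) ^ r := by ring
      _ ≤ Real.exp (-(r : ℝ) ^ (ε / 4)) * (N : ℝ) ^ r :=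
          mul_le_mul_of_nonneg_right h4 (by positivity)
  · intro d hd hdE p hp hpy
    have hp0 : (0 : ℝ) < p := by exact_mod_cast hp.pos
    have h1 : (1 - 2 * δ) * ((1 - δ) / p) * r < (cnt p d : ℝ) := by
      by_contra h2
      apply hdE
      refine Finset.mem_biUnion.2 ⟨p, Finset.mem_filter.2 ⟨Finset.mem_Icc.2 ⟨hp.one_lt.le, hpy⟩, hp⟩,
        Finset.mem_filter.2 ⟨?_, not_lt.1 h2⟩⟩
      unfold Pool.Agent.N773.AD.box
      rw [Fintype.mem_piFinset]
      intro i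
      exact Finset.mem_Ioc.2 (hd i)
    have h2 : SS ε r p ≤ cnt p d := by
      unfold SS
      refine Nat.floor_le_of_le (le_trans ?_ h1.le)
      rw [div_le_iff₀ hp0]
      have h3 : (1 - 2 * δ) * ((1 - δ) / p) * r * p = (1 - 2 * δ) * (1 - δ) * r := by
        field_simp
      rw [h3]
      refine mul_le_mul_of_nonneg_right ?_ hr0.le
      rw [hδ]
      nlinarith
    exact h2


/-- grouping: a set of at least `m * e` indices can be distributed evenly over `m` groups -/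
theorem groups {r m e : ℕ} (hm : 0 < m) (S : Finset (Fin r)) (hS : m * e ≤ S.card) :
    ∃ g : Fin r → Fin m, ∀ c, e ≤ (univ.filter (fun i => g i = c ∧ i ∈ S)).card := by
  classical
  let φ := S.equivFin
  refine ⟨fun i => if h : i ∈ S then ⟨(φ ⟨i, h⟩).val % m, Nat.mod_lt _ hm⟩ else ⟨0, hm⟩, fun c => ?_⟩
  have hlt : ∀ t : Fin e, c.val + m * t.val < S.card := by
    intro t
    have h1 : m * (t.val + 1) ≤ m * e := Nat.mul_le_mul_left _ t.isLt
    have h2 := c.isLt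
    have h3 : m * (t.val + 1) = m * t.val + m := by ring
    omega
  let f : Fin e → Fin r := fun t => (φ.symm ⟨c.val + m * t.val, hlt t⟩).1
  have hf : Function.Injective f := by
    intro t t' h
    have h1 : φ.symm ⟨c.val + m * t.val, hlt t⟩ = φ.symm ⟨c.val + m * t'.val, hlt t'⟩ :=
      Subtype.ext h
    have h2 := φ.symm.injective h1
    have h3 : c.val + m * t.val = c.val + m * t'.val := congrArg Fin.val h2
    have h4 : m * t.val = m * t'.val := by omega
    exact Fin.ext (Nat.eq_of_mul_eq_mul_left hm h4)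
  calc e = (univ.image f).card := by
        rw [Finset.card_image_of_injective _ hf, Finset.card_univ, Fintype.card_fin]
    _ ≤ _ := by
        apply Finset.card_le_card
        intro i hi
        obtain ⟨t, -, rfl⟩ := Finset.mem_image.1 hi
        have hmem : f t ∈ S := (φ.symm ⟨c.val + m * t.val, hlt t⟩).2
        refine Finset.mem_filter.2 ⟨Finset.mem_univ _, ?_, hmem⟩
        show (if h : f t ∈ S then (⟨(φ ⟨f t, h⟩).val % m, Nat.mod_lt _ hm⟩ : Fin m)
          else ⟨0, hm⟩) = c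
        rw [dif_pos hmem]
        apply Fin.ext
        show (φ ⟨f t, hmem⟩).val % m = c.val
        have h5 : (⟨f t, hmem⟩ : S) = φ.symm ⟨c.val + m * t.val, hlt t⟩ := Subtype.ext rfl
        rw [h5, Equiv.apply_symm_apply]
        show (c.val + m * t.val) % m = c.val
        rw [Nat.add_mul_mod_self_left, Nat.mod_eq_of_lt c.isLt]

/-- the power of `p` which divides the products of all groups -/
theorem group_dvd {r m e p : ℕ} (hm : 0 < m) (d : Fin r → ℕ) (h : m * e ≤ cnt p d) :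
    ∃ g : Fin r → Fin m, ∀ c, p ^ e ∣ ∏ i ∈ univ.filter (fun i => g i = c), d i := by
  classical
  obtain ⟨g, hg⟩ := groups hm (univ.filter (fun i => p ∣ d i)) h
  refine ⟨g, fun c => ?_⟩
  have h1 := hg c
  set T := univ.filter (fun i => g i = c ∧ i ∈ univ.filter (fun i => p ∣ d i)) with hT
  have h2 : p ^ T.card ∣ ∏ i ∈ T, d i := by
    rw [← Finset.prod_const]
    refine Finset.prod_dvd_prod_of_dvd _ _ fun i hi => ?_
    exact (Finset.mem_filter.1 (Finset.mem_filter.1 hi).2.2).2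
  refine (pow_dvd_pow p h1).trans (h2.trans (Finset.prod_dvd_prod_of_subset _ _ _ ?_))
  intro i hi
  exact Finset.mem_filter.2 ⟨Finset.mem_univ _, (Finset.mem_filter.1 hi).2.1⟩

/-- the exponents of `QQ ε m r` are at most `SS / m` -/
theorem ex_le (ε : ℝ) {m : ℕ} (hm : 0 < m) (r p : ℕ) : ex ε m r p ≤ SS ε r p / m := by
  unfold ex
  refine (Nat.div_le_div_left (Nat.le_add_right m _) hm).trans ?_
  exact Nat.div_le_div_right (Nat.sub_le _ _)

/-- a finite product of powers of different primes divides what all the powers divide, eventually -/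
theorem QQ_dvd (ε : ℝ) {m : ℕ} (r : ℕ) (x : ℕ → ℤ)
    (h : ∀ p : ℕ, p.Prime → p ≤ yy ε r →
      ∃ K : ℕ, ∀ k : ℕ, K ≤ k → ((p ^ ex ε m r p : ℕ) : ℤ) ∣ x k) :
    ∃ K : ℕ, ∀ k : ℕ, K ≤ k → ((QQ ε m r : ℕ) : ℤ) ∣ x k := by
  classical
  have h' : ∀ p : ℕ, ∃ K : ℕ, p.Prime → p ≤ yy ε r → ∀ k : ℕ, K ≤ k →
      ((p ^ ex ε m r p : ℕ) : ℤ) ∣ x k := by
    intro p
    by_cases hp : p.Prime ∧ p ≤ yy ε r
    · obtain ⟨K, hK⟩ := h p hp.1 hp.2
      exact ⟨K, fun _ _ => hK⟩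
    · exact ⟨0, fun h1 h2 => absurd ⟨h1, h2⟩ hp⟩
  choose K hK using h'
  refine ⟨((Icc 1 (yy ε r)).filter Nat.Prime).sup K, fun k hk => ?_⟩
  unfold QQ
  rw [Nat.cast_prod]
  refine Finset.prod_dvd_of_coprime ?_ ?_
  · intro p hp q hq hpq
    have h1 := (Finset.mem_filter.1 hp).2
    have h2 := (Finset.mem_filter.1 hq).2
    rw [Function.onFun, Nat.isCoprime_iff_coprime]
    exact Nat.Coprime.pow _ _ ((Nat.coprime_primes h1 h2).2 hpq)
  · intro p hp
    obtain ⟨h1, h2⟩ := Finset.mem_filter.1 hp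
    exact hK p h2 (Finset.mem_Icc.1 h1).2 k ((Finset.le_sup (f := K) hp).trans hk)

end Pool.Agent.U660.AD
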